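import Pool.Agent.H37.Frk2

namespace Pool.Agent.Results.MP_9614a6_lc.Quartic

open Pool.Agent.H37.Frk Filter Asymptotics

theorem result :
    (∀ w, ∃! f, IsFricke w f) ∧ (∀ n, BddAbove (sizes n)) ∧
      (fun n : ℕ => (S n : ℝ)) =Θ[atTop] fun n : ℕ => (n : ℝ) ^ 4 := by
  refine ⟨fun w => ?_, fun n => ⟨_, fun s hs => sizes_le hs⟩, ?_, ?_⟩
  · obtain ⟨L, rfl⟩ := FreeGroup.mk_toWord (x := w) ▸ (⟨w.toWord, rfl⟩ :
      ∃ L, FreeGroup.mk L = FreeGroup.mk w.toWord)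
    exact ⟨_, fr_fricke L, fun g hg => fricke_unique hg (fr_fricke L)⟩
  · refine IsBigO.of_bound 750 (eventually_atTop.2 ⟨1, fun n hn => ?_⟩)
    have h1 : S n ≤ 750 * n ^ 4 := by
      calc S n ≤ (2 * n + 3) ^ 3 * (3 * (n + 1)) := S_le n
        _ ≤ (5 * n) ^ 3 * (6 * n) :=
          Nat.mul_le_mul (Nat.pow_le_pow_left (by omega) _) (by omega)
        _ = 750 * n ^ 4 := by ring
    rw [Real.norm_natCast, Real.norm_of_nonneg (by positivity)]
    exact_mod_cast h1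
  · refine IsBigO.of_bound (64 ^ 4) (eventually_atTop.2 ⟨64, fun n hn => ?_⟩)
    have h1 : n ^ 4 ≤ 64 ^ 4 * S n := by
      calc n ^ 4 ≤ (64 * (n / 32)) ^ 4 := Nat.pow_le_pow_left (by omega) _
        _ = 64 ^ 4 * (n / 32) ^ 4 := by rw [mul_pow]
        _ ≤ _ := Nat.mul_le_mul_left _ (S_ge n (by omega))
    rw [Real.norm_natCast, Real.norm_of_nonneg (by positivity)]
    exact_mod_cast h1

end Pool.Agent.Results.MP_9614a6_lc.Quartic
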